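import Pool.Agent.helper32.CK.Z1

/-!
# ε-isomorphic C*-algebras are close in the Kadison-Kastler sense

Full positive answer to Q1.  `IsEpsIso ε φ` says that the (arbitrary) map `φ : A → B` is an
`ε`-isomorphism, `dKK` is the Kadison-Kastler distance of two sets of operators.
-/

namespace Pool.Agent.Results.MP_25dcdb_an.KadisonKastler

open Filter Topology

universe u

/-- `φ : A → B` (an arbitrary map) is an `ε`-isomorphism of C*-algebras: `‖φ a‖ ≤ 1` on the unit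
ball, `φ` is `ε`-linear, `ε`-self-adjoint, `ε`-multiplicative and `ε`-isometric on the unit ball
(the suprema over the unit ball are `< ε`, i.e. `≤ δ` for some `δ < ε`), and every element of the
unit ball of `B` is at distance `< ε` from the image of the unit ball of `A`. -/
structure IsEpsIso {A B : Type u} [NonUnitalCStarAlgebra A] [NonUnitalCStarAlgebra B]
    (ε : ℝ) (φ : A → B) : Prop where
  norm_le : ∀ a : A, ‖a‖ ≤ 1 → ‖φ a‖ ≤ 1
  linear : ∃ δ < ε, ∀ (x y : A) (l m : ℂ), ‖x‖ ≤ 1 → ‖y‖ ≤ 1 → ‖l‖ ≤ 1 → ‖m‖ ≤ 1 →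
    ‖φ (l • x + m • y) - l • φ x - m • φ y‖ ≤ δ
  star : ∃ δ < ε, ∀ x : A, ‖x‖ ≤ 1 → ‖φ (Star.star x) - Star.star (φ x)‖ ≤ δ
  mul : ∃ δ < ε, ∀ x y : A, ‖x‖ ≤ 1 → ‖y‖ ≤ 1 → ‖φ (x * y) - φ x * φ y‖ ≤ δ
  isometric : ∃ δ < ε, ∀ x : A, ‖x‖ ≤ 1 → |‖x‖ - ‖φ x‖| ≤ δ
  onto : ∀ b : B, ‖b‖ ≤ 1 → ∃ x : A, ‖x‖ ≤ 1 ∧ ‖b - φ x‖ < ε

/-- `sup` over the elements of norm at most one of `S` of the distance to `T`. -/
noncomputable def oneSided {X : Type u} [NonUnitalCStarAlgebra X] (S T : Set X) : ℝ :=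
  ⨆ a : {a : X // a ∈ S ∧ ‖a‖ ≤ 1}, Metric.infDist a.1 T

/-- The Kadison-Kastler distance of two subsets of a C*-algebra. -/
noncomputable def dKK {X : Type u} [NonUnitalCStarAlgebra X] (S T : Set X) : ℝ :=
  max (oneSided S T) (oneSided T S)

/-- `f` is an injective *-homomorphism. -/
def IsEmb {A X : Type u} [NonUnitalCStarAlgebra A] [NonUnitalCStarAlgebra X] (f : A → X) : Prop :=
  Function.Injective f ∧ ∃ g : A →⋆ₙₐ[ℂ] X, ⇑g = f

/-- `A` and `B` embed into the C*-algebra `X` with ranges at Kadison-Kastler distance at most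
`c`. -/
def CloseIn (A B X : Type u) [NonUnitalCStarAlgebra A] [NonUnitalCStarAlgebra B]
    [NonUnitalCStarAlgebra X] (c : ℝ) : Prop :=
  ∃ (ρA : A → X) (ρB : B → X), IsEmb ρA ∧ IsEmb ρB ∧ dKK (Set.range ρA) (Set.range ρB) ≤ c

/-- The C*-algebras `A` and `B` have faithful representations on a common Hilbert space `H` with
ranges at Kadison-Kastler distance at most `c`. -/
def Close (A B : Type u) [NonUnitalCStarAlgebra A] [NonUnitalCStarAlgebra B] (c : ℝ) : Prop :=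
  ∃ (H : Type u) (_ : NormedAddCommGroup H) (_ : InnerProductSpace ℂ H) (_ : CompleteSpace H),
    CloseIn A B (H →L[ℂ] H) c

/-- For all C*-algebras `A`, `B` (unital or not, separable or not): if some map `A → B` is an
`ε`-isomorphism then `A` and `B` have faithful representations on a common Hilbert space with
`d_KK ≤ f ε`. -/
def ClosePairs (f : ℝ → ℝ) : Prop :=
  ∀ (A B : Type u) [NonUnitalCStarAlgebra A] [NonUnitalCStarAlgebra B] (ε : ℝ),
    0 < ε → (∃ φ : A → B, IsEpsIso ε φ) → Close A B (f ε)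

theorem close_main (A B : Type u) [NonUnitalCStarAlgebra A] [NonUnitalCStarAlgebra B] (ε : ℝ)
    (hε : 0 < ε) (hφ : ∃ φ : A → B, IsEpsIso ε φ) : Close A B (10 ^ 20 * ε ^ (1 / 8 : ℝ)) := by
  obtain ⟨φ, k⟩ := hφ
  obtain ⟨H, i1, i2, i3, ρA, ρB, hA, hB, h⟩ := Pool.Agent.helper32.CK.main A B ε hε
    ⟨φ, k.norm_le, k.linear, k.star, k.mul, k.isometric, k.onto⟩
  exact ⟨H, i1, i2, i3, ρA, ρB, ⟨hA, ρA, rfl⟩, ⟨hB, ρB, rfl⟩, h⟩

/-- `d_KK ≤ 10^20 ε^(1/8)`; hence for every `0 < α < 1/8` there is a function `η`, independent of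
the algebras, with `η(ε)/ε^α → 0` as `ε → 0` and `d_KK ≤ η(ε)`. -/
theorem result : ClosePairs.{u} (fun ε => 10 ^ 20 * ε ^ (1 / 8 : ℝ)) ∧
    ∀ α : ℝ, 0 < α → α < 1 / 8 → ∃ η : ℝ → ℝ,
      Tendsto (fun ε => η ε / ε ^ α) (𝓝[>] 0) (𝓝 0) ∧ ClosePairs.{u} η := by
  refine ⟨fun A B _ _ ε hε hφ => close_main A B ε hε hφ, fun α _ h1 =>
    ⟨fun ε => 10 ^ 20 * ε ^ (1 / 8 : ℝ), ?_, fun A B _ _ ε hε hφ => close_main A B ε hε hφ⟩⟩
  have h2 : 0 < 1 / 8 - α := by linarith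
  have h3 : Tendsto (fun ε : ℝ => 10 ^ 20 * ε ^ (1 / 8 - α)) (𝓝[>] 0) (𝓝 (10 ^ 20 * 0)) := by
    refine Tendsto.const_mul _ ?_
    have := (Real.continuousAt_rpow_const 0 (1 / 8 - α) (Or.inr h2.le)).tendsto
    rw [Real.zero_rpow h2.ne'] at this
    exact this.mono_left nhdsWithin_le_nhds
  rw [mul_zero] at h3
  refine h3.congr' ?_
  filter_upwards [self_mem_nhdsWithin] with ε hε
  rw [Real.rpow_sub hε, mul_div_assoc]

end Pool.Agent.Results.MP_25dcdb_an.KadisonKastler
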